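import Pool.Agent.H.MP_7fb4a2_an.E

set_option autoImplicit false
open MeasureTheory

universe u v

namespace Pool.Agent.Results.MP_7fb4a2_an.Example

/-- Fourier-Stieltjes transforms of complex measures on the circle: complex linear combinations of
transforms of finite positive Borel measures -/
noncomputable def B : Submodule ℂ (ℤ → ℂ) :=
  Submodule.span ℂ {g | ∃ μ : Measure UnitAddCircle, IsFiniteMeasure μ ∧
    ∀ n : ℤ, g n = ∫ t, fourier n t ∂μ}

/-- Hilbert representable -/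
def HilbRep {Y : Type u} [TopologicalSpace Y] (R : Y ≃ₜ Y) : Prop :=
  ∃ (H : Type v) (_ : NormedAddCommGroup H) (_ : InnerProductSpace ℂ H) (_ : CompleteSpace H)
    (U : H ≃ₗᵢ[ℂ] H) (α : Y → H),
    Topology.IsEmbedding (fun y => toWeakSpace ℂ H (α y)) ∧ ∀ y, α (R y) = U (α y)

open Pool.Agent.H.MP_7fb4a2_an in
theorem result : ∃ (X : Type) (_ : TopologicalSpace X) (_ : CompactSpace X)
    (_ : TopologicalSpace.MetrizableSpace X) (T : X ≃ₜ X) (x₀ : X),
    DenseRange (fun n : ℤ => (T ^ n) x₀) ∧ (∀ x : X, ¬ IsOpen {x}) ∧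
    (∀ F : C(X, ℂ), ∀ ε : ℝ, 0 < ε → ∃ g ∈ B, ∀ n : ℤ, ‖F ((T ^ n) x₀) - g n‖ ≤ ε) ∧
    (∀ (Y : Type u) [TopologicalSpace Y] (R : Y ≃ₜ Y) (π : X → Y), Continuous π →
      Function.Surjective π → (∀ x, π (T x) = R (π x)) → HilbRep.{u, v} R → Subsingleton Y) ∧
    (∃ F : C(X, ℂ), ∃ n : ℤ, F ((T ^ n) x₀) ≠ F x₀) ∧
    ∀ F : C(X, ℂ), (fun n : ℤ => F ((T ^ n) x₀)) ∈ B → ∃ c : ℂ, ∀ n : ℤ, F ((T ^ n) x₀) = c := by
  refine ⟨Xf ff, inferInstance, inferInstance, inferInstance, TT ff, x0 ff, dense_orb ff, no_isol,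
    hilbert, ?_, ?_, ?_⟩
  · rintro Y _ R π hπ hs he ⟨H, _, _, _, U, α, hα, hU⟩
    have := core3 U (fun y => α (π y)) (fun w => (weak_inner w).comp (hα.continuous.comp hπ))
      (fun y => by rw [he, hU])
    refine ⟨fun a b => ?_⟩
    obtain ⟨a, rfl⟩ := hs a
    obtain ⟨b, rfl⟩ := hs b
    exact hα.injective (congrArg _ ((this a).trans (this b).symm))
  · by_contra hh
    push Not at hh
    refine yy_ne 0 (Subtype.ext (funext (fun m => ?_)))
    let F : C(Xf ff, ℂ) := ⟨fun z => (z.1 m : ℂ),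
      Complex.continuous_ofReal.comp ((continuous_apply m).comp continuous_subtype_val)⟩
    have : F (yy 0 1 0) = F (x0 ff) :=
      (dense_orb ff).induction_on (p := fun y => F y = F (x0 ff)) _
        (isClosed_eq F.continuous continuous_const) (hh F)
    exact Complex.ofReal_injective this
  · intro F hF
    obtain ⟨H, _, _, _, V, v, w, h, hg⟩ := MC_span hF
    exact ⟨F (x0 ff), fun n => core2 h v w F F.continuous hg _⟩

end Pool.Agent.Results.MP_7fb4a2_an.Example
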